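import Pool.Agent.Helper12.MA.StA
import Pool.Agent.Helper12.MA.Lib

/-!
# Project MA, module EFL: flipping an edge

The graph `G1` is `M` with the edge `a b` subdivided by a new vertex, which is joined to `c`.  It is
3-connected and planar, and the face `F'` together with the new vertex is a face of it.
-/

set_option autoImplicit false

namespace Pool.Agent.Helper80.MA

open Pool.Agent.Helper12.MA
open Pool.Agent.Helper51.AJ (IsMinor Planar Apex ExMinor Con Tch)
open Pool.Agent.Helper12.NK (rst Kc add cnt Pcy IsFace Cof plus)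

variable {V : Type}

/-- how to see that a set is connected -/
private theorem con_of_reach {α β : Type} {H : SimpleGraph α} {K : SimpleGraph β} {S : Set α}
    {T : Set β} (f : α → β) (hS : Con H S) (hf : ∀ x ∈ S, f x ∈ T)
    (hadj : ∀ x y (hx : x ∈ S) (hy : y ∈ S), H.Adj x y →
      (K.induce T).Reachable ⟨f x, hf x hx⟩ ⟨f y, hf y hy⟩)
    (hcov : ∀ t (ht : t ∈ T), ∃ x, ∃ hx : x ∈ S, (K.induce T).Reachable ⟨t, ht⟩ ⟨f x, hf x hx⟩) :
    Con K T := by
  have key : ∀ u v : S, (H.induce S).Reachable u v →
      (K.induce T).Reachable ⟨f u.1, hf u.1 u.2⟩ ⟨f v.1, hf v.1 v.2⟩ := by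
    rintro u v ⟨w⟩
    induction w with
    | nil => exact SimpleGraph.Reachable.refl _
    | @cons u v w h _ ih => exact (hadj u.1 v.1 u.2 v.2 h).trans ih
  obtain ⟨x0⟩ := hS.nonempty
  have : Nonempty T := ⟨⟨f x0.1, hf x0.1 x0.2⟩⟩
  refine ⟨?_⟩
  rintro ⟨t, ht⟩ ⟨t', ht'⟩
  obtain ⟨x, hx, h1⟩ := hcov t ht
  obtain ⟨y, hy, h2⟩ := hcov t' ht'
  exact (h1.trans (key ⟨x, hx⟩ ⟨y, hy⟩ (hS.preconnected _ _))).trans h2.symm

/-- images of connected sets -/
private theorem con_img {α β : Type} {H : SimpleGraph α} {K : SimpleGraph β} {S : Set α}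
    (f : α → β) (hS : Con H S) (hadj : ∀ x ∈ S, ∀ y ∈ S, H.Adj x y → K.Adj (f x) (f y)) :
    Con K (f '' S) := by
  refine con_of_reach f hS (fun x hx => ⟨x, hx, rfl⟩) ?_ ?_
  · intro x y hx hy hxy
    exact SimpleGraph.Adj.reachable (G := K.induce (f '' S)) (hadj x hx y hy hxy)
  · rintro t ⟨x, hx, rfl⟩
    exact ⟨x, hx, SimpleGraph.Reachable.refl _⟩

/-- faces given by enumerations -/
private theorem isFace_of_nat {α : Type} (G : SimpleGraph α) (U S : Set α) (m : ℕ) (hm : 3 ≤ m)
    (h : ℕ → α) (hinj : ∀ i j, i < m → j < m → h i = h j → i = j)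
    (hadj : ∀ i j, i < m → j < m → (G.Adj (h i) (h j) ↔
      (j = i + 1 ∨ i = j + 1 ∨ (i = 0 ∧ j + 1 = m) ∨ (j = 0 ∧ i + 1 = m))))
    (hS : S = {x | ∃ j, j < m ∧ x = h j}) (hSU : S ⊆ U) (hcon : Con G (U \ S)) :
    IsFace G U S := by
  have : NeZero m := ⟨by omega⟩
  have hr : Set.range (fun j : ZMod m => h j.val) = S := by
    rw [hS]
    ext x
    constructor
    · rintro ⟨j, rfl⟩
      exact ⟨j.val, ZMod.val_lt j, rfl⟩
    · rintro ⟨j, hj, rfl⟩
      exact ⟨(j : ZMod m), by show h (j : ZMod m).val = h j; rw [ZMod.val_natCast_of_lt hj]⟩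
  have hsucc : ∀ i j : ZMod m, j = i + 1 ↔
      (j.val = i.val + 1 ∨ (i.val + 1 = m ∧ j.val = 0)) := by
    intro i j
    have h1 : (i + 1).val = (i.val + 1) % m := by
      rw [ZMod.val_add, ZMod.val_one_eq_one_mod, Nat.add_mod_mod]
    have h2 : j = i + 1 ↔ j.val = (i.val + 1) % m := by
      rw [← h1]
      exact ⟨fun h => by rw [h], fun h => ZMod.val_injective m h⟩
    rw [h2]
    have hi := ZMod.val_lt i
    have hj := ZMod.val_lt j
    rcases Nat.lt_or_ge (i.val + 1) m with h3 | h3
    · rw [Nat.mod_eq_of_lt h3]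
      omega
    · have h4 : i.val + 1 = m := by omega
      rw [h4, Nat.mod_self]
      omega
  refine ⟨m, fun j => h j.val, ⟨hm, ?_, by rw [hr]; exact hSU, ?_, by rw [hr]; exact hcon⟩, hr⟩
  · intro i j hij
    exact ZMod.val_injective m (hinj _ _ (ZMod.val_lt i) (ZMod.val_lt j) hij)
  · intro i j
    show G.Adj (h i.val) (h j.val) ↔ _
    rw [hadj _ _ (ZMod.val_lt i) (ZMod.val_lt j), hsucc, hsucc]
    have hi := ZMod.val_lt i
    have hj := ZMod.val_lt j
    omega

/-- the edge `a b` of `M` subdivided by `none`, which is joined to `c` -/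
private def G1 (M : SimpleGraph V) (a b c : V) : SimpleGraph (Option V) where
  Adj
    | some x, some y => (dl M a b).Adj x y
    | none, some x => x = a ∨ x = b ∨ x = c
    | some x, none => x = a ∨ x = b ∨ x = c
    | none, none => False
  symm := ⟨fun x y h => by
    rcases x with _ | x <;> rcases y with _ | y
    · exact h
    · exact h
    · exact h
    · exact (dl M a b).adj_symm h⟩
  loopless := ⟨fun x h => by
    rcases x with _ | x
    · exact h
    · exact (dl M a b).ne_of_adj h rfl⟩

private def U1 (U : Set V) : Set (Option V) := insert none (some '' U)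

private theorem some_mem {U : Set V} {x : V} (h : x ∈ U) : some x ∈ U1 U :=
  Or.inr ⟨x, h, rfl⟩

private theorem none_mem {U : Set V} : (none : Option V) ∈ U1 U := Or.inl rfl

/-- `G1` is 3-connected -/
private theorem kc_G1 [Finite V] {M : SimpleGraph V} {U : Set V} {a b c : V} (hK : Kc 3 M U)
    (hab : M.Adj a b) (haU : a ∈ U) (hbU : b ∈ U) (hcU : c ∈ U) (hca : c ≠ a) (hcb : c ≠ b) :
    Kc 3 (G1 M a b c) (U1 U) := by
  classical
  have hne : a ≠ b := M.ne_of_adj hab
  constructor
  · have h1 : (U1 U).ncard = U.ncard + 1 := by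
      unfold U1
      rw [Set.ncard_insert_of_notMem, Set.ncard_image_of_injective _ (Option.some_injective V)]
      rintro ⟨x, _, hx⟩
      exact absurd hx (by simp)
    rw [h1]
    have := hK.1
    omega
  · intro X' hX'
    set X : Set V := some ⁻¹' X' with hX
    have hXi : some '' X ⊆ X' := by
      rintro _ ⟨x, hx, rfl⟩
      exact hx
    have hXc : (some '' X : Set (Option V)).ncard = X.ncard :=
      Set.ncard_image_of_injective _ (Option.some_injective V)
    have hXle : X.ncard ≤ X'.ncard := by
      rw [← hXc]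
      exact Set.ncard_le_ncard hXi (Set.toFinite _)
    by_cases hn : none ∈ X'
    · -- the new vertex is deleted
      have hX2 : X.ncard < 2 := by
        have h1 : insert none (some '' X) ⊆ X' := by
          intro x hx
          rcases hx with rfl | hx
          · exact hn
          · exact hXi hx
        have h2 := Set.ncard_le_ncard h1 (Set.toFinite _)
        rw [Set.ncard_insert_of_notMem, hXc] at h2
        · omega
        · rintro ⟨x, _, hx⟩
          exact absurd hx (by simp)
      have hE : U1 U \ X' = some '' (U \ X) := by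
        ext x
        rcases x with _ | x
        · constructor
          · rintro ⟨_, h⟩
            exact absurd hn h
          · rintro ⟨y, _, hy⟩
            exact absurd hy (by simp)
        · constructor
          · rintro ⟨h1 | ⟨y, hy, h1⟩, h2⟩
            · exact absurd h1 (by simp)
            · have h3 : y = x := Option.some_injective V h1
              subst h3
              exact ⟨y, ⟨hy, h2⟩, rfl⟩
          · rintro ⟨y, ⟨hy, h2⟩, h1⟩
            have h3 : y = x := Option.some_injective V h1
            subst h3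
            exact ⟨some_mem hy, h2⟩
      rw [hE]
      by_cases hcase : a ∈ X ∨ b ∈ X
      · apply con_img some (hK.2 X (by omega))
        intro x hx y hy hxy
        refine ⟨hxy, ?_, ?_⟩
        · rintro ⟨rfl, rfl⟩
          rcases hcase with h | h
          · exact hx.2 h
          · exact hy.2 h
        · rintro ⟨rfl, rfl⟩
          rcases hcase with h | h
          · exact hy.2 h
          · exact hx.2 h
      · push Not at hcase
        -- delete `a` too
        have h1 : (insert a X).ncard < 3 := by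
          have := Set.ncard_insert_le a X
          omega
        have h2 : Con (G1 M a b c) (some '' (U \ insert a X)) := by
          apply con_img some (hK.2 _ h1)
          intro x hx y hy hxy
          refine ⟨hxy, ?_, ?_⟩
          · rintro ⟨rfl, rfl⟩
            exact hx.2 (Or.inl rfl)
          · rintro ⟨rfl, rfl⟩
            exact hy.2 (Or.inl rfl)
        have h3 : ∃ y, y ∈ U ∧ M.Adj a y ∧ y ∉ insert b X := by
          have h4 := ((nKCA V M U).2.2.1 3 hK a haU)
          by_contra hcon
          push Not at hcon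
          have h5 : {y | y ∈ U ∧ M.Adj a y} ⊆ insert b X := fun y hy => hcon y hy.1 hy.2
          have h6 := Set.ncard_le_ncard h5 (Set.toFinite _)
          have h7 := Set.ncard_insert_le b X
          omega
        obtain ⟨y, hyU, hay, hyX⟩ := h3
        have h4 : some '' (U \ X) = {some a} ∪ some '' (U \ insert a X) := by
          ext x
          constructor
          · rintro ⟨z, hz, rfl⟩
            by_cases hza : z = a
            · left; rw [hza]; rfl
            · right
              refine ⟨z, ⟨hz.1, ?_⟩, rfl⟩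
              rintro (h | h)
              · exact hza h
              · exact hz.2 h
          · rintro (h | ⟨z, hz, rfl⟩)
            · exact ⟨a, ⟨haU, hcase.1⟩, h.symm⟩
            · exact ⟨z, ⟨hz.1, fun h => hz.2 (Or.inr h)⟩, rfl⟩
        rw [h4]
        apply Pool.Agent.Helper51.AJ.con_union
          (Pool.Agent.Helper51.AJ.con_singleton _ _) h2
        refine ⟨some a, rfl, some y, ⟨y, ⟨hyU, ?_⟩, rfl⟩, ?_⟩
        · rintro (h | h)
          · exact M.ne_of_adj hay h.symm
          · exact hyX (Or.inr h)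
        · refine ⟨hay, ?_, ?_⟩
          · rintro ⟨_, h⟩
            exact hyX (Or.inl h)
          · rintro ⟨_, h⟩
            exact M.ne_of_adj hay h.symm
    · -- the new vertex stays
      have hnT : none ∈ U1 U \ X' := ⟨none_mem, hn⟩
      have hC : Con M (U \ X) := hK.2 X (by omega)
      have hf : ∀ x ∈ U \ X, some x ∈ U1 U \ X' := fun x hx => ⟨some_mem hx.1, hx.2⟩
      refine con_of_reach some hC hf ?_ ?_
      · intro x y hx hy hxy
        by_cases h1 : x = a ∧ y = b
        · obtain ⟨rfl, rfl⟩ := h1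
          have e1 : ((G1 M x y c).induce (U1 U \ X')).Adj ⟨some x, hf x hx⟩ ⟨none, hnT⟩ :=
            (Or.inl rfl : x = x ∨ x = y ∨ x = c)
          have e2 : ((G1 M x y c).induce (U1 U \ X')).Adj ⟨none, hnT⟩ ⟨some y, hf y hy⟩ :=
            (Or.inr (Or.inl rfl) : y = x ∨ y = y ∨ y = c)
          exact e1.reachable.trans e2.reachable
        · by_cases h2 : x = b ∧ y = a
          · obtain ⟨rfl, rfl⟩ := h2
            have e1 : ((G1 M y x c).induce (U1 U \ X')).Adj ⟨some x, hf x hx⟩ ⟨none, hnT⟩ :=
              (Or.inr (Or.inl rfl) : x = y ∨ x = x ∨ x = c)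
            have e2 : ((G1 M y x c).induce (U1 U \ X')).Adj ⟨none, hnT⟩ ⟨some y, hf y hy⟩ :=
              (Or.inl rfl : y = y ∨ y = x ∨ y = c)
            exact e1.reachable.trans e2.reachable
          · have e1 : ((G1 M a b c).induce (U1 U \ X')).Adj ⟨some x, hf x hx⟩ ⟨some y, hf y hy⟩ :=
              (⟨hxy, h1, h2⟩ : (dl M a b).Adj x y)
            exact e1.reachable
      · intro t ht
        rcases t with _ | t
        · -- one of `a, b, c` is left
          have h1 : ∃ x, x ∈ U ∧ (x = a ∨ x = b ∨ x = c) ∧ x ∉ X := by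
            by_contra hcon
            push Not at hcon
            have h2 : ({a, b, c} : Set V) ⊆ X := by
              rintro x (rfl | rfl | rfl)
              · exact hcon _ haU (Or.inl rfl)
              · exact hcon _ hbU (Or.inr (Or.inl rfl))
              · exact hcon _ hcU (Or.inr (Or.inr rfl))
            have h3 := Set.ncard_le_ncard h2 (Set.toFinite _)
            have h4 : ({a, b, c} : Set V).ncard = 3 := by
              rw [Set.ncard_eq_three]
              exact ⟨a, b, c, hne, hca.symm, hcb.symm, rfl⟩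
            omega
          obtain ⟨x, hxU, hx, hxX⟩ := h1
          refine ⟨x, ⟨hxU, hxX⟩, ?_⟩
          have e1 : ((G1 M a b c).induce (U1 U \ X')).Adj ⟨none, ht⟩ ⟨some x, hf x ⟨hxU, hxX⟩⟩ := hx
          exact e1.reachable
        · have htU : t ∈ U := by
            rcases ht.1 with h | ⟨y, hy, h⟩
            · exact absurd h (by simp)
            · rw [← Option.some_injective V h]; exact hy
          exact ⟨t, ⟨htU, ht.2⟩, SimpleGraph.Reachable.refl _⟩

/-- `G1` is planar -/
private theorem pl_G1 [Finite V] {M : SimpleGraph V} {U F : Set V} {a b c : V} (hP : Pn M U)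
    (hF : IsFace M U F) (haF : a ∈ F) (hbF : b ∈ F) (hcF : c ∈ F) :
    Planar (rst (G1 M a b c) (U1 U)) := by
  classical
  have hmemU : ∀ x : V, some x ∈ U1 U → x ∈ U := by
    intro x h
    rcases h with h | ⟨y, hy, h⟩
    · exact absurd h (by simp)
    · rw [← Option.some_injective V h]; exact hy
  let f : Option V → Set (V ⊕ {F : Set V // IsFace M U F}) := fun o =>
    Option.elim o {Sum.inr ⟨F, hF⟩} (fun x => {Sum.inl x})
  refine nPTR _ _ (rst (G1 M a b c) (U1 U)) (plus M U) f ?_ ?_ ?_ (nPLS V M U hP.1 hP.2)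
  · intro x y _
    rcases x with _ | x
    · exact Pool.Agent.Helper51.AJ.con_singleton _ _
    · exact Pool.Agent.Helper51.AJ.con_singleton _ _
  · intro x _ y _ hxy _ _
    rcases x with _ | x <;> rcases y with _ | y
    · exact absurd rfl hxy
    · exact Set.disjoint_singleton.2 (by simp)
    · exact Set.disjoint_singleton.2 (by simp)
    · exact Set.disjoint_singleton.2 (fun h => hxy (congrArg some (Sum.inl_injective h)))
  · rintro x y ⟨h1, h2, h3⟩
    rcases x with _ | x <;> rcases y with _ | y
    · exact absurd h1 id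
    · refine ⟨Sum.inr ⟨F, hF⟩, rfl, Sum.inl y, rfl, ?_⟩
      show y ∈ F
      rcases h1 with rfl | rfl | rfl
      · exact haF
      · exact hbF
      · exact hcF
    · refine ⟨Sum.inl x, rfl, Sum.inr ⟨F, hF⟩, rfl, ?_⟩
      show x ∈ F
      rcases h1 with rfl | rfl | rfl
      · exact haF
      · exact hbF
      · exact hcF
    · exact ⟨Sum.inl x, rfl, Sum.inl y, rfl, ⟨h1.1, hmemU x h2, hmemU y h3⟩⟩

/-- the path in a face, starting next to `a` with `b` -/
private theorem path_form [Finite V] (hFAX : StFAX) {M : SimpleGraph V} {U F : Set V} {a b : V}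
    (hF : IsFace M U F) (haF : a ∈ F) (hbF : b ∈ F) (hab : M.Adj a b) :
    ∃ (k : ℕ) (g : ℕ → V), 1 ≤ k ∧ F \ {a} = {x | ∃ j, j ≤ k ∧ x = g j} ∧
      (∀ i j, i ≤ k → j ≤ k → g i = g j → i = j) ∧
      (∀ i j, i ≤ k → j ≤ k → (M.Adj (g i) (g j) ↔ (j = i + 1 ∨ i = j + 1))) ∧
      (∀ i, i ≤ k → (M.Adj a (g i) ↔ (i = 0 ∨ i = k))) ∧ g 0 = b := by
  obtain ⟨k, g, hk, hg, hinj, hadj, hz⟩ := (hFAX V M U F hF).2.2.2.2.1 a haF
  have hb : b ∈ F \ {a} := ⟨hbF, fun h => M.ne_of_adj hab h.symm⟩
  rw [hg] at hb
  obtain ⟨j, hj, hbj⟩ := hb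
  have hj2 := (hz j hj).1 (by rw [← hbj]; exact hab)
  rcases hj2 with h0 | h0
  · exact ⟨k, g, hk, hg, hinj, hadj, hz, by rw [hbj, h0]⟩
  · refine ⟨k, fun i => g (k - i), hk, ?_, ?_, ?_, ?_, ?_⟩
    · rw [hg]
      ext x
      constructor
      · rintro ⟨i, hi, rfl⟩
        exact ⟨k - i, by omega, by show g i = g (k - (k - i)); congr 1; omega⟩
      · rintro ⟨i, hi, rfl⟩
        exact ⟨k - i, by omega, rfl⟩
    · intro i i' hi hi' h
      have := hinj (k - i) (k - i') (by omega) (by omega) h
      omega
    · intro i i' hi hi'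
      rw [hadj (k - i) (k - i') (by omega) (by omega)]
      omega
    · intro i hi
      rw [hz (k - i) (by omega)]
      omega
    · show g (k - 0) = b
      rw [hbj, h0]
      rfl

/-- the new face -/
private theorem face_G1 [Finite V] (hFAX : StFAX) {M : SimpleGraph V} {U F : Set V} {a b c : V}
    (hF : IsFace M U F) (haF : a ∈ F) (hbF : b ∈ F) (hab : M.Adj a b) (hcF : c ∉ F) :
    IsFace (G1 M a b c) (U1 U) (insert none (some '' F)) := by
  classical
  obtain ⟨k, g, hk, hg, hinj, hadj, hz, hg0⟩ := path_form hFAX hF haF hbF hab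
  obtain ⟨hFU, _, hcon, _⟩ := hFAX V M U F hF
  have hgF : ∀ i, i ≤ k → g i ∈ F \ {a} := by
    intro i hi
    rw [hg]
    exact ⟨i, hi, rfl⟩
  have hga : ∀ i, i ≤ k → g i ≠ a := fun i hi => (hgF i hi).2
  have hgc : ∀ i, i ≤ k → g i ≠ c := fun i hi h => hcF (h ▸ (hgF i hi).1)
  have hgb : ∀ i, i ≤ k → (g i = b ↔ i = 0) := by
    intro i hi
    constructor
    · intro h
      exact hinj i 0 hi (by omega) (h.trans hg0.symm)
    · rintro rfl
      exact hg0
  let h : ℕ → Option V := fun i => Nat.casesOn i none (fun j => if j ≤ k then some (g j) else some a)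
  have h0 : h 0 = none := rfl
  have h1 : ∀ j, j ≤ k → h (j + 1) = some (g j) := fun j hj => if_pos hj
  have h2 : h (k + 1 + 1) = some a := if_neg (by omega)
  have hcases : ∀ i, i < k + 3 → i = 0 ∨ (∃ j, j ≤ k ∧ i = j + 1) ∨ i = k + 1 + 1 := by
    intro i hi
    rcases Nat.eq_zero_or_pos i with h | h
    · exact Or.inl h
    · rcases Nat.lt_or_ge i (k + 2) with h' | h'
      · exact Or.inr (Or.inl ⟨i - 1, by omega, by omega⟩)
      · exact Or.inr (Or.inr (by omega))
  apply isFace_of_nat (G1 M a b c) (U1 U) _ (k + 3) (by omega) h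
  · -- injective
    intro i j hi hj hij
    rcases hcases i hi with rfl | ⟨i', hi', rfl⟩ | rfl <;>
      rcases hcases j hj with rfl | ⟨j', hj', rfl⟩ | rfl
    · rfl
    · rw [h0, h1 _ hj'] at hij; exact absurd hij (by simp)
    · rw [h0, h2] at hij; exact absurd hij (by simp)
    · rw [h0, h1 _ hi'] at hij; exact absurd hij (by simp)
    · rw [h1 _ hi', h1 _ hj'] at hij
      rw [hinj i' j' hi' hj' (Option.some_injective V hij)]
    · rw [h1 _ hi', h2] at hij
      exact absurd (Option.some_injective V hij) (hga i' hi')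
    · rw [h0, h2] at hij; exact absurd hij (by simp)
    · rw [h1 _ hj', h2] at hij
      exact absurd (Option.some_injective V hij).symm (hga j' hj')
    · rfl
  · -- adjacency
    have main : ∀ i j, i < k + 3 → j < k + 3 → i ≤ j → ((G1 M a b c).Adj (h i) (h j) ↔
        (j = i + 1 ∨ i = j + 1 ∨ (i = 0 ∧ j + 1 = k + 3) ∨ (j = 0 ∧ i + 1 = k + 3))) := by
      intro i j hi hj hij
      rcases hcases i hi with rfl | ⟨i', hi', rfl⟩ | rfl <;>
        rcases hcases j hj with rfl | ⟨j', hj', rfl⟩ | rfl
      · rw [h0]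
        constructor
        · intro h; exact absurd h id
        · omega
      · rw [h0, h1 _ hj']
        show (g j' = a ∨ g j' = b ∨ g j' = c) ↔ _
        rw [hgb j' hj']
        have e1 := hga j' hj'
        have e2 := hgc j' hj'
        constructor
        · rintro (h | h | h)
          · exact absurd h e1
          · left; omega
          · exact absurd h e2
        · intro h
          right; left
          omega
      · rw [h0, h2]
        show (a = a ∨ a = b ∨ a = c) ↔ _
        constructor
        · intro _; omega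
        · intro _; exact Or.inl rfl
      · omega
      · rw [h1 _ hi', h1 _ hj']
        show (dl M a b).Adj (g i') (g j') ↔ _
        have e1 : (dl M a b).Adj (g i') (g j') ↔ M.Adj (g i') (g j') := by
          constructor
          · intro h; exact h.1
          · intro h
            exact ⟨h, fun h' => hga i' hi' h'.1, fun h' => hga j' hj' h'.2⟩
        rw [e1, hadj i' j' hi' hj']
        omega
      · rw [h1 _ hi', h2]
        show (dl M a b).Adj (g i') a ↔ _
        have e1 : (dl M a b).Adj (g i') a ↔ (i' = 0 ∨ i' = k) ∧ i' ≠ 0 := by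
          rw [← hz i' hi', Ne, ← hgb i' hi']
          constructor
          · intro h
            exact ⟨h.1.symm, fun h' => h.2.2 ⟨h', rfl⟩⟩
          · intro h
            exact ⟨h.1.symm, fun h' => hga i' hi' h'.1, fun h' => h.2 h'.1⟩
        rw [e1]
        omega
      · omega
      · omega
      · constructor
        · intro h; exact absurd rfl ((G1 M a b c).ne_of_adj h)
        · omega
    intro i j hi hj
    rcases le_total i j with hij | hij
    · exact main i j hi hj hij
    · rw [SimpleGraph.adj_comm, main j i hj hi hij]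
      omega
  · -- the set
    ext x
    constructor
    · rintro (rfl | ⟨y, hy, rfl⟩)
      · exact ⟨0, by omega, rfl⟩
      · by_cases hya : y = a
        · exact ⟨k + 1 + 1, by omega, by rw [h2, hya]⟩
        · have h3 : y ∈ F \ {a} := ⟨hy, hya⟩
          rw [hg] at h3
          obtain ⟨j, hj, rfl⟩ := h3
          exact ⟨j + 1, by omega, (h1 j hj).symm⟩
    · rintro ⟨i, hi, rfl⟩
      rcases hcases i hi with rfl | ⟨i', hi', rfl⟩ | rfl
      · exact Or.inl rfl
      · rw [h1 _ hi']
        exact Or.inr ⟨g i', (hgF i' hi').1, rfl⟩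
      · rw [h2]
        exact Or.inr ⟨a, haF, rfl⟩
  · -- inside
    rintro x (rfl | ⟨y, hy, rfl⟩)
    · exact none_mem
    · exact some_mem (hFU hy)
  · -- the complement
    have hE : U1 U \ insert none (some '' F) = some '' (U \ F) := by
      ext x
      constructor
      · rintro ⟨h3 | ⟨y, hy, rfl⟩, h4⟩
        · exact absurd (Or.inl h3) h4
        · exact ⟨y, ⟨hy, fun h5 => h4 (Or.inr ⟨y, h5, rfl⟩)⟩, rfl⟩
      · rintro ⟨y, ⟨hy, h5⟩, rfl⟩
        refine ⟨some_mem hy, ?_⟩
        rintro (h6 | ⟨z, hz, h6⟩)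
        · exact absurd h6 (by simp)
        · rw [Option.some_injective V h6] at hz
          exact h5 hz
    rw [hE]
    apply con_img some hcon
    intro x hx y hy hxy
    refine ⟨hxy, ?_, ?_⟩
    · rintro ⟨rfl, rfl⟩
      exact hx.2 haF
    · rintro ⟨rfl, rfl⟩
      exact hx.2 hbF

/-- **Module EFL.** -/
theorem hEFL (hFAX : StFAX) (hFNB : StFNB) : StEFL := by
  classical
  intro V _ M U a b c d F F' hP hab hF hF' hFF haF hbF haF' hbF' hcF hca hcb hdF' hda hdb
  have hFU : F ⊆ U := (hFAX V M U F hF).1
  have hF'U : F' ⊆ U := (hFAX V M U F' hF').1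
  have hne : a ≠ b := M.ne_of_adj hab
  have hcF' : c ∉ F' := by
    intro h
    exact hFF ((hFNB V M U hP).2.2.2.2.1 F F' hF hF' a b c haF hbF hcF haF' hbF' h hne hcb.symm
      hca.symm)
  have hcd : c ≠ d := fun h => hcF' (h ▸ hdF')
  have hK := kc_G1 hP.1 hab (hFU haF) (hFU hbF) (hFU hcF) hca hcb
  have hPl := pl_G1 hP hF haF hbF hcF
  have hFa := face_G1 hFAX hF' haF' hbF' hab hcF'
  have hplus := nPLS (Option V) (G1 M a b c) (U1 U) hK hPl
  set Φ : {F : Set (Option V) // IsFace (G1 M a b c) (U1 U) F} := ⟨_, hFa⟩ with hΦ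
  let f : V → Set (Option V ⊕ {F : Set (Option V) // IsFace (G1 M a b c) (U1 U) F}) := fun x =>
    if x = c then {Sum.inl (some c), Sum.inl none} ∪ {Sum.inr Φ} else {Sum.inl (some x)}
  have hfc : f c = {Sum.inl (some c), Sum.inl none} ∪ {Sum.inr Φ} := if_pos rfl
  have hfo : ∀ x, x ≠ c → f x = {Sum.inl (some x)} := fun x hx => if_neg hx
  have hmem : ∀ x, Sum.inl (some x) ∈ f x := by
    intro x
    by_cases hx : x = c
    · rw [hx, hfc]; exact Or.inl (Or.inl rfl)
    · rw [hfo x hx]; rfl
  have hdisj : ∀ x, x ≠ c → Disjoint (f c) (f x) := by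
    intro x hx
    rw [hfc, hfo x hx, Set.disjoint_singleton_right]
    rintro ((h | h) | h)
    · exact hx (Option.some_injective V (Sum.inl_injective h))
    · exact absurd (Sum.inl_injective h) (by simp)
    · exact absurd h (by simp)
  refine nPTR _ _ _ (plus (G1 M a b c) (U1 U)) f ?_ ?_ ?_ hplus
  · intro x _ _
    by_cases hx : x = c
    · rw [hx, hfc]
      apply Pool.Agent.Helper51.AJ.con_union
      · apply Pool.Agent.Helper51.AJ.con_pair
        exact ⟨Or.inr (Or.inr rfl), some_mem (hFU hcF), none_mem⟩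
      · exact Pool.Agent.Helper51.AJ.con_singleton _ _
      · exact ⟨Sum.inl none, Or.inr rfl, Sum.inr Φ, rfl, Or.inl rfl⟩
    · rw [hfo x hx]
      exact Pool.Agent.Helper51.AJ.con_singleton _ _
  · intro x _ y _ hxy _ _
    by_cases hx : x = c
    · rw [hx]
      exact hdisj y (fun h => hxy (hx.trans h.symm))
    · by_cases hy : y = c
      · rw [hy]
        exact (hdisj x hx).symm
      · rw [hfo x hx, hfo y hy]
        exact Set.disjoint_singleton.2 (fun h => hxy (Option.some_injective V (Sum.inl_injective h)))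
  · rintro x y ⟨h1 | ⟨_, ⟨rfl, rfl⟩ | ⟨rfl, rfl⟩⟩, h2, h3⟩
    · exact ⟨Sum.inl (some x), hmem x, Sum.inl (some y), hmem y, ⟨h1, some_mem h2, some_mem h3⟩⟩
    · refine ⟨Sum.inr Φ, ?_, Sum.inl (some y), hmem y, Or.inr ⟨y, hdF', rfl⟩⟩
      rw [hfc]
      exact Or.inr rfl
    · refine ⟨Sum.inl (some x), hmem x, Sum.inr Φ, ?_, Or.inr ⟨x, hdF', rfl⟩⟩
      rw [hfc]
      exact Or.inr rfl

end Pool.Agent.Helper80.MA
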